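import Mathlib

/-!
# Two-generator soluble groups in the variety generated by a finite group

For a finite group `G`, a 2-generator soluble group of derived length exactly `d` satisfying all
laws of `G` exists if and only if `G` has a 2-generator soluble subgroup of derived length at
least `d`.
-/

namespace Pool.Agent.Work.MP_403fb3_al

open Subgroup

/-- If a finite group `R` maps onto a soluble group `H` generated by `a, b`, then some soluble
subgroup generated by two elements maps onto `H`. -/
lemma exists_solvable_lift {R : Type*} [Group R] [Finite R] {H : Type*} [Group H]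
    [Group.IsSolvable H] (π : R →* H) (hπ : Function.Surjective π) (a b : H)
    (hab : closure ({a, b} : Set H) = ⊤) :
    ∃ l₁ l₂ : R, Group.IsSolvable ↥(closure ({l₁, l₂} : Set R)) ∧
      (closure ({l₁, l₂} : Set R)).map π = ⊤ := by
  classical
  -- a minimal subgroup with image `⊤`
  obtain ⟨L, hL⟩ : ∃ L : Subgroup R, Minimal (fun L : Subgroup R => L.map π = ⊤) L := by
    have hfin : ({L : Subgroup R | L.map π = ⊤}).Finite := Set.toFinite _
    have hne : ({L : Subgroup R | L.map π = ⊤}).Nonempty := ⟨⊤, map_top_of_surjective π hπ⟩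
    obtain ⟨L, hL⟩ := hfin.exists_minimal hne
    exact ⟨L, hL⟩
  have hLtop : L.map π = ⊤ := hL.prop
  have ha : a ∈ L.map π := hLtop ▸ mem_top a
  have hb : b ∈ L.map π := hLtop ▸ mem_top b
  obtain ⟨l₁, hl₁, rfl⟩ := ha
  obtain ⟨l₂, hl₂, rfl⟩ := hb
  have hcl : closure ({l₁, l₂} : Set R) = L := by
    have h1 : closure ({l₁, l₂} : Set R) ≤ L := by
      rw [closure_le]
      rintro x (rfl | rfl)
      · exact hl₁
      · exact hl₂
    refine le_antisymm h1 (hL.le_of_le ?_ h1)
    show (closure ({l₁, l₂} : Set R)).map π = ⊤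
    rw [MonoidHom.map_closure, Set.image_pair]
    exact hab
  refine ⟨l₁, l₂, ?_, by rw [hcl]; exact hLtop⟩
  rw [hcl]
  -- the kernel of `π` on `L` lies in the Frattini subgroup
  set ρ : L →* H := π.comp L.subtype with hρ
  have hρs : Function.Surjective ρ := by
    intro h
    have : h ∈ L.map π := hLtop ▸ mem_top h
    obtain ⟨x, hx, rfl⟩ := this
    exact ⟨⟨x, hx⟩, rfl⟩
  have hker : ρ.ker ≤ frattini L := by
    unfold frattini Order.radical
    refine le_iInf₂ (fun M hM => ?_)
    have hM : IsCoatom M := hM
    by_contra hle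
    have hsup : M ⊔ ρ.ker = ⊤ := by
      refine hM.2 _ (lt_of_le_of_ne le_sup_left ?_)
      intro h
      exact hle (by rw [h]; exact le_sup_right)
    have hMtop : M.map ρ = ⊤ := by
      have h1 : (M ⊔ ρ.ker).map ρ = ⊤ := by
        rw [hsup]; exact map_top_of_surjective ρ hρs
      rw [Subgroup.map_sup] at h1
      have h2 : ρ.ker.map ρ = ⊥ := by
        rw [Subgroup.map_eq_bot_iff]
      rw [h2, sup_bot_eq] at h1
      exact h1
    have h3 : (M.map L.subtype).map π = ⊤ := by
      rw [Subgroup.map_map]
      exact hMtop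
    have h4 : M.map L.subtype ≤ L := by
      rintro _ ⟨x, _, rfl⟩
      exact x.2
    have h5 : L ≤ M.map L.subtype := hL.le_of_le h3 h4
    apply hM.1
    rw [eq_top_iff]
    intro x _
    obtain ⟨y, hy, hyx⟩ := h5 x.2
    have : y = x := Subtype.ext hyx
    rwa [← this]
  have : Group.IsNilpotent (frattini L) := frattini_nilpotent
  have : Group.IsSolvable (frattini L) := inferInstance
  have : Group.IsSolvable ρ.ker :=
    Group.isSolvable_of_isSolvable_injective (f := Subgroup.inclusion hker) (Subgroup.inclusion_injective hker)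
  exact Group.isSolvable_of_ker_le_range ρ.ker.subtype ρ (by rw [Subgroup.range_subtype])

/-- The derived series is compatible with surjections. -/
lemma derived_ne_bot_of_surj {A B : Type*} [Group A] [Group B] (f : A →* B)
    (hf : Function.Surjective f) {m : ℕ} (h : derivedSeries B m ≠ ⊥) : derivedSeries A m ≠ ⊥ := by
  intro h0
  apply h
  rw [← map_derivedSeries_eq hf, h0, Subgroup.map_bot]

theorem iff_subgroup (G : Type) [Group G] [Finite G] (d : ℕ) :
    (∃ (H : Type) (_ : Group H),
      (∀ (n : ℕ) (w : FreeGroup (Fin n)),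
          (∀ f : Fin n → G, FreeGroup.lift f w = 1) →
            ∀ f : Fin n → H, FreeGroup.lift f w = 1) ∧
      (∃ a b : H, closure ({a, b} : Set H) = ⊤) ∧
      derivedSeries H d = ⊥ ∧ ∀ m < d, derivedSeries H m ≠ ⊥) ↔
    ∃ x y : G, Group.IsSolvable ↥(closure ({x, y} : Set G)) ∧
      ∀ m < d, derivedSeries ↥(closure ({x, y} : Set G)) m ≠ ⊥ := by
  constructor
  · rintro ⟨H, _, hlaw, ⟨a, b, hab⟩, hd, hm⟩
    have : Group.IsSolvable H := ⟨⟨d, hd⟩⟩
    -- the relatively free group
    let X : Fin 2 → (G × G → G) := ![fun p => p.1, fun p => p.2]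
    let φ : FreeGroup (Fin 2) →* (G × G → G) := FreeGroup.lift X
    let ψ : FreeGroup (Fin 2) →* H := FreeGroup.lift ![a, b]
    have hker : φ.rangeRestrict.ker ≤ ψ.ker := by
      intro w hw
      rw [MonoidHom.mem_ker] at hw ⊢
      have hw' : φ w = 1 := by
        have := congrArg Subtype.val hw
        simpa using this
      refine hlaw 2 w ?_ ![a, b]
      intro f
      have h1 : (Pi.evalMonoidHom (fun _ : G × G => G) (f 0, f 1)).comp φ = FreeGroup.lift f := by
        refine FreeGroup.ext_hom _ _ ?_
        intro i
        fin_cases i <;> simp [φ, X]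
      have h2 := DFunLike.congr_fun h1 w
      rw [← h2, MonoidHom.comp_apply, hw', map_one]
    let π : φ.range →* H :=
      φ.rangeRestrict.liftOfSurjective φ.rangeRestrict_surjective ⟨ψ, hker⟩
    have hπ : ∀ w, π (φ.rangeRestrict w) = ψ w := fun w =>
      MonoidHom.liftOfRightInverse_comp_apply _ _ _ ⟨ψ, hker⟩ w
    have hψ : Function.Surjective ψ := by
      rw [← MonoidHom.range_eq_top, eq_top_iff, ← hab, closure_le]
      rintro x (rfl | rfl)
      · exact ⟨FreeGroup.of 0, by simp [ψ]⟩
      · exact ⟨FreeGroup.of 1, by simp [ψ]⟩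
    have hπs : Function.Surjective π := by
      intro h
      obtain ⟨w, rfl⟩ := hψ h
      exact ⟨_, hπ w⟩
    obtain ⟨l₁, l₂, hsol, htop⟩ := exists_solvable_lift π hπs a b hab
    -- coordinate projections
    let L : Subgroup φ.range := closure ({l₁, l₂} : Set φ.range)
    have hcoord : ∀ p : G × G, ∃ ev : L →* ↥(closure ({(l₁ : G × G → G) p, (l₂ : G × G → G) p} : Set G)),
        Function.Surjective ev ∧ ∀ x : L, ((ev x : G)) = ((x : φ.range) : G × G → G) p := by
      intro p
      let e0 : φ.range →* G := (Pi.evalMonoidHom (fun _ : G × G => G) p).comp φ.range.subtype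
      have hmap : L.map e0 = closure ({(l₁ : G × G → G) p, (l₂ : G × G → G) p} : Set G) := by
        simp only [L]
        rw [MonoidHom.map_closure, Set.image_pair]
        rfl
      let e1 : L →* G := e0.comp L.subtype
      have hmem : ∀ x : L, e1 x ∈ closure ({(l₁ : G × G → G) p, (l₂ : G × G → G) p} : Set G) := by
        intro x
        rw [← hmap]
        exact ⟨x, x.2, rfl⟩
      refine ⟨e1.codRestrict _ hmem, ?_, fun x => rfl⟩
      rintro ⟨y, hy⟩
      rw [← hmap] at hy
      obtain ⟨x, hx, rfl⟩ := hy
      exact ⟨⟨x, hx⟩, rfl⟩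
    have : Group.IsSolvable L := hsol
    have hLH : Function.Surjective (π.comp L.subtype) := by
      intro h
      have : h ∈ L.map π := htop ▸ mem_top h
      obtain ⟨x, hx, rfl⟩ := this
      exact ⟨⟨x, hx⟩, rfl⟩
    have hLm : ∀ m < d, derivedSeries L m ≠ ⊥ := fun m h =>
      derived_ne_bot_of_surj _ hLH (hm m h)
    rcases Nat.eq_zero_or_pos d with rfl | hdpos
    · obtain ⟨ev, hev, _⟩ := hcoord (1, 1)
      refine ⟨_, _, Group.isSolvable_of_surjective hev, fun m h => absurd h (Nat.not_lt_zero m)⟩
    · have h1 := hLm (d - 1) (by omega)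
      obtain ⟨g, hg, hg1⟩ := (Subgroup.ne_bot_iff_exists_ne_one).1 h1 |> fun ⟨g, hg⟩ =>
        (⟨g.1, g.2, fun h => hg (Subtype.ext h)⟩ : ∃ g : L, g ∈ derivedSeries L (d - 1) ∧ g ≠ 1)
      obtain ⟨p, hp⟩ : ∃ p : G × G, ((g : φ.range) : G × G → G) p ≠ 1 := by
        by_contra hh
        push Not at hh
        apply hg1
        apply Subtype.ext
        apply Subtype.ext
        funext p
        exact hh p
      obtain ⟨ev, hev, hev2⟩ := hcoord p
      refine ⟨_, _, Group.isSolvable_of_surjective hev, ?_⟩
      intro m hmd h0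
      have h2 : ev g ∈ derivedSeries _ (d - 1) := by
        rw [← map_derivedSeries_eq hev]
        exact ⟨g, hg, rfl⟩
      have h3 : ev g ∈ derivedSeries _ m := derivedSeries_antitone _ (by omega) h2
      rw [h0, Subgroup.mem_bot] at h3
      apply hp
      rw [← hev2 g, h3]
      rfl
  · rintro ⟨x, y, hsol, hm⟩
    set R := closure ({x, y} : Set G) with hR
    let N : Subgroup R := derivedSeries R d
    have : N.Normal := derivedSeries_normal _ _
    have hmk : Function.Surjective (QuotientGroup.mk' N) := QuotientGroup.mk'_surjective N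
    refine ⟨R ⧸ N, inferInstance, ?_, ?_, ?_, ?_⟩
    · intro n w hw f
      -- lift `f` to `R`
      choose f' hf' using fun i => hmk (f i)
      have h1 : FreeGroup.lift f = (QuotientGroup.mk' N).comp (FreeGroup.lift f') := by
        refine FreeGroup.ext_hom _ _ ?_
        intro i
        simp only [MonoidHom.comp_apply, FreeGroup.lift_apply_of]
        exact (hf' i).symm
      rw [h1, MonoidHom.comp_apply]
      have h2 : FreeGroup.lift f' w = 1 := by
        apply Subtype.ext
        have h3 : R.subtype.comp (FreeGroup.lift f') = FreeGroup.lift (fun i => (f' i : G)) := by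
          refine FreeGroup.ext_hom _ _ ?_
          intro i
          simp
        have h4 := DFunLike.congr_fun h3 w
        rw [hw] at h4
        exact h4
      rw [h2, map_one]
    · refine ⟨QuotientGroup.mk' N ⟨x, subset_closure (by simp)⟩,
        QuotientGroup.mk' N ⟨y, subset_closure (by simp)⟩, ?_⟩
      have h1 : closure ({(⟨x, subset_closure (by simp)⟩ : R), ⟨y, subset_closure (by simp)⟩} :
          Set R) = ⊤ := by
        have := Subgroup.closure_closure_coe_preimage (k := ({x, y} : Set G))
        convert this using 2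
        ext z
        simp only [Set.mem_insert_iff, Set.mem_singleton_iff, Set.mem_preimage, Subtype.ext_iff]
      rw [← Set.image_pair, ← MonoidHom.map_closure, h1]
      exact map_top_of_surjective _ hmk
    · rw [← map_derivedSeries_eq hmk]
      rw [Subgroup.map_eq_bot_iff, QuotientGroup.ker_mk']
    · intro m hmd h0
      rw [← map_derivedSeries_eq hmk, Subgroup.map_eq_bot_iff, QuotientGroup.ker_mk'] at h0
      -- the derived series is constant from `m` on
      have h1 : derivedSeries R m = derivedSeries R (m + 1) :=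
        le_antisymm (h0.trans (derivedSeries_antitone _ (by omega)))
          (derivedSeries_antitone _ (Nat.le_succ m))
      have h2 : ∀ k, derivedSeries R (m + k) = derivedSeries R m := by
        intro k
        induction k with
        | zero => rfl
        | succ k ih =>
          rw [← add_assoc, derivedSeries_succ, ih, ← derivedSeries_succ, ← h1]
      obtain ⟨n, hn⟩ := hsol.solvable
      apply hm m hmd
      rw [← h2 n, eq_bot_iff, ← hn]
      exact derivedSeries_antitone _ (by omega)

end Pool.Agent.Work.MP_403fb3_al
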